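import Mathlib

open Polynomial

namespace Pool.Agent.Results.MP_7b40b5_an.NotDividing

/-- a substitution applied to a word -/
def app {α β : Type} (σ : α → List β) (w : List α) : List β := w.flatMap σ

/-- incidence matrix: entry `(i, j)` counts the occurrences of `i` in `σ j` -/
def inc {k : ℕ} (σ : Fin k → List (Fin k)) : Matrix (Fin k) (Fin k) ℤ :=
  fun i j => ((σ j).count i : ℤ)

/-- the reversal of a substitution -/
def rev {k : ℕ} (σ : Fin k → List (Fin k)) : Fin k → List (Fin k) := fun i => (σ i).reverse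

/-- unimodular irreducible Pisot: the characteristic polynomial is irreducible over `ℚ`, it has a
real root `> 1` and all its other complex roots have modulus `< 1`, and `|det| = 1` -/
def UIP {k : ℕ} (σ : Fin k → List (Fin k)) : Prop :=
  Irreducible ((inc σ).charpoly.map (Int.castRingHom ℚ)) ∧
  (∃ l : ℝ, 1 < l ∧ aeval l (inc σ).charpoly = 0 ∧
    ∀ z : ℂ, aeval z (inc σ).charpoly = 0 → z = l ∨ ‖z‖ < 1) ∧
  |(inc σ).det| = 1

/-- prefix of length `n` of an infinite word -/
def pre {α : Type} (u : ℕ → α) (n : ℕ) : List α := (List.range n).map u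

/-- `u` is a one-sided fixed point of `σ` -/
def Fixed {α : Type} (σ : α → List α) (u : ℕ → α) : Prop :=
  ∀ n, ∃ m, app σ (pre u n) = pre u m

/-- pairs of words -/
abbrev Pr (k : ℕ) : Type := List (Fin k) × List (Fin k)

def Bal {k : ℕ} (U V : List (Fin k)) : Prop := ∀ i, U.count i = V.count i

/-- minimal balanced pair -/
def MinBal {k : ℕ} (P : Pr k) : Prop :=
  P.1 ≠ [] ∧ Bal P.1 P.2 ∧ ∀ m, 1 ≤ m → m < P.1.length → ¬ Bal (P.1.take m) (P.2.take m)

/-- `L` is the splitting of `(U, V)` into minimal balanced pairs -/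
def Split {k : ℕ} (L : List (Pr k)) (U V : List (Fin k)) : Prop :=
  (∀ P ∈ L, MinBal P) ∧ app Prod.fst L = U ∧ app Prod.snd L = V

/-- pairs reachable from `P₀` under `S` -/
inductive Reach {k : ℕ} (S : Pr k → List (Pr k)) (P₀ : Pr k) : Pr k → Prop
  | base : Reach S P₀ P₀
  | step {P Q : Pr k} : Reach S P₀ P → Q ∈ S P → Reach S P₀ Q

/-- characteristic polynomial of the incidence matrix of `S` on the alphabet `B` -/
noncomputable def chi {k : ℕ} (B : Finset (Pr k)) (S : Pr k → List (Pr k)) : ℤ[X] :=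
  Matrix.charpoly (Matrix.of fun i j : B => ((S j.1).count i.1 : ℤ))

section
variable {α : Type} (σ : α → List α) (a : α) (w : List α)

lemma app_append (x y : List α) : app σ (x ++ y) = app σ x ++ app σ y := List.flatMap_append

lemma len_app (hn : ∀ b, σ b ≠ []) (x : List α) : x.length ≤ (app σ x).length := by
  induction x with
  | nil => simp
  | cons b x ih =>
    have : app σ (b :: x) = σ b ++ app σ x := rfl
    rw [this, List.length_append, List.length_cons]
    have := List.length_pos_iff.2 (hn b)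
    omega

lemma step (ha : σ a = a :: w) (hw : w ≠ []) (hn : ∀ b, σ b ≠ []) (n : ℕ) :
    ∃ t, t ≠ [] ∧ (app σ)^[n + 1] [a] = (app σ)^[n] [a] ++ t := by
  induction n with
  | zero => exact ⟨w, hw, by simp [app, ha]⟩
  | succ n ih =>
    obtain ⟨t, ht, h⟩ := ih
    refine ⟨app σ t, ?_, ?_⟩
    · have := len_app σ hn t
      have := List.length_pos_iff.2 ht
      exact List.length_pos_iff.1 (by omega)
    · rw [Function.iterate_succ_apply' _ (n + 1), h, app_append, ← h,
        Function.iterate_succ_apply' _ n]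

lemma exists_fixed (ha : σ a = a :: w) (hw : w ≠ []) (hn : ∀ b, σ b ≠ []) :
    ∃ u : ℕ → α, Fixed σ u ∧ ∀ n i, u i = ((app σ)^[n] [a]).getD i (u i) := by
  have hl : ∀ n, n < ((app σ)^[n] [a]).length := by
    intro n
    induction n with
    | zero => simp
    | succ n ih =>
      obtain ⟨t, ht, h⟩ := step σ a w ha hw hn n
      have := List.length_pos_iff.2 ht
      rw [h, List.length_append]; omega
  have hp : ∀ n m, (app σ)^[n] [a] <+: (app σ)^[n + m] [a] := by
    intro n m
    induction m with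
    | zero => exact List.prefix_refl _
    | succ m ih =>
      obtain ⟨t, -, h⟩ := step σ a w ha hw hn (n + m)
      rw [← add_assoc, h]
      exact ih.trans (List.prefix_append _ _)
  have hu : ∀ n i (hi : i < ((app σ)^[n] [a]).length),
      ((app σ)^[i] [a])[i]'(hl i) = ((app σ)^[n] [a])[i] := by
    intro n i hi
    rw [(hp i n).getElem, (hp n i).getElem]
    simp only [add_comm]
  have hpre : ∀ n x, x <+: (app σ)^[n] [a] →
      x = pre (fun i => ((app σ)^[i] [a])[i]'(hl i)) x.length := by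
    intro n x hx
    apply List.ext_getElem (by simp [pre])
    intro i h1 h2
    simp only [pre, List.getElem_map, List.getElem_range]
    rw [hu n i (h1.trans_le hx.length_le), hx.getElem]
  refine ⟨fun i => ((app σ)^[i] [a])[i]'(hl i), fun n => ⟨_, hpre (n + 1) _ ?_⟩, fun n i => ?_⟩
  · have h1 := hpre n _ (List.take_prefix n _)
    rw [List.length_take, min_eq_left (hl n).le] at h1
    rw [← h1, Function.iterate_succ_apply']
    conv_rhs => rw [← List.take_append_drop n ((app σ)^[n] [a]), app_append]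
    exact List.prefix_append _ _
  · by_cases hi : i < ((app σ)^[n] [a]).length
    · rw [List.getD_eq_getElem _ _ hi]; exact hu n i hi
    · rw [List.getD_eq_default _ _ (not_lt.1 hi)]

end

def σ0 : Fin 3 → List (Fin 3) := ![[1], [1, 2], [0, 1, 2]]
def B0 : Finset (Pr 3) := {([1, 2], [2, 1]), ([0], [0]), ([1], [1])}
def S0 (P : Pr 3) : List (Pr 3) :=
  if P = ([1, 2], [2, 1]) then [([1, 2], [2, 1]), ([0], [0]), ([1, 2], [2, 1])]
  else if P = ([0], [0]) then [([1], [1])] else [([1, 2], [2, 1])]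

instance {k : ℕ} (U V : List (Fin k)) : Decidable (Bal U V) := by unfold Bal; infer_instance

instance {k : ℕ} (P : Pr k) : Decidable (MinBal P) :=
  decidable_of_iff (P.1 ≠ [] ∧ Bal P.1 P.2 ∧
      ∀ m < P.1.length, 1 ≤ m → ¬ Bal (P.1.take m) (P.2.take m)) (by
    unfold MinBal
    exact and_congr_right fun _ => and_congr_right fun _ =>
      ⟨fun h m a b => h m b a, fun h m a b => h m b a⟩)

lemma cp : (inc σ0).charpoly = X ^ 3 - 2 * X ^ 2 - 1 := by
  have : inc σ0 = !![0, 0, 1; 1, 1, 1; 0, 1, 1] := by decide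
  rw [this, Matrix.charpoly, Matrix.det_fin_three]
  simp
  ring

lemma cq : (inc σ0).charpoly.reverse = 1 - 2 * X - X ^ 3 := by
  rw [cp]
  have hd : (X ^ 3 - 2 * X ^ 2 - 1 : ℤ[X]).natDegree = 3 := by compute_degree!
  rw [Polynomial.reverse, hd]
  have h2 : (2 * X ^ 2 : ℤ[X]) = C 2 * X ^ 2 := rfl
  rw [reflect_sub, reflect_sub, h2, reflect_C_mul_X_pow, reflect_monomial, reflect_one]
  simp [revAt]

lemma cchi : chi B0 S0 = X ^ 3 - 2 * X ^ 2 - 1 := by
  let f : Fin 3 → B0 := ![⟨([0], [0]), by decide⟩, ⟨([1], [1]), by decide⟩,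
    ⟨([1, 2], [2, 1]), by decide⟩]
  have hf : Function.Bijective f := by decide
  unfold chi
  rw [← Matrix.charpoly_reindex (Equiv.ofBijective f hf).symm]
  have : Matrix.reindex (Equiv.ofBijective f hf).symm (Equiv.ofBijective f hf).symm
      (Matrix.of fun i j : B0 => ((S0 j.1).count i.1 : ℤ)) = !![0, 0, 1; 1, 0, 0; 0, 1, 2] := by
    ext i j
    simp only [Matrix.reindex_apply, Equiv.symm_symm, Matrix.submatrix_apply,
      Equiv.ofBijective_apply, Matrix.of_apply]
    revert i j
    decide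
  rw [this, Matrix.charpoly, Matrix.det_fin_three]
  simp
  ring

lemma uip : UIP σ0 := by
  refine ⟨?_, ?_, by decide⟩
  · rw [cp]
    have hm : (X ^ 3 - 2 * X ^ 2 - 1 : ℤ[X]).Monic := by monicity!
    have hd : (X ^ 3 - 2 * X ^ 2 - 1 : ℤ[X]).natDegree = 3 := by compute_degree!
    have : Irreducible (X ^ 3 - 2 * X ^ 2 - 1 : ℤ[X]) := by
      rw [hm.irreducible_iff_roots_eq_zero_of_degree_le_three (by omega) (by omega)]
      rw [Multiset.eq_zero_iff_forall_notMem]
      intro x hx
      have h := (mem_roots hm.ne_zero).1 hx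
      simp only [IsRoot.def, eval_sub, eval_pow, eval_X, eval_mul, eval_ofNat, eval_one] at h
      have h1 : x * (x ^ 2 - 2 * x) = 1 := by linear_combination h
      rcases Int.eq_one_or_neg_one_of_mul_eq_one h1 with rfl | rfl <;> norm_num at h
    exact (hm.irreducible_iff_irreducible_map_fraction_map (K := ℚ)).1 this
  · rw [cp]
    obtain ⟨l, hl, h⟩ : ∃ l ∈ Set.Icc (2 : ℝ) 3, l ^ 3 - 2 * l ^ 2 - 1 = 0 :=
      intermediate_value_Icc (f := fun l : ℝ => l ^ 3 - 2 * l ^ 2 - 1) (by norm_num)
        (by fun_prop) (by norm_num)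
    refine ⟨l, by linarith [hl.1], by simpa only [map_sub, map_pow, aeval_X, map_mul, map_ofNat, map_one] using h, fun z hz => ?_⟩
    simp only [map_sub, map_pow, aeval_X, map_mul, map_ofNat, map_one] at hz
    have h' : (l : ℂ) ^ 3 - 2 * (l : ℂ) ^ 2 - 1 = 0 := by exact_mod_cast h
    have h1 : (z - l) * (z ^ 2 + (l - 2) * z + l * (l - 2)) = 0 := by
      linear_combination hz - h'
    rcases mul_eq_zero.1 h1 with h2 | h2
    · exact Or.inl (sub_eq_zero.1 h2)
    · right
      by_contra hc
      have hc : 1 ≤ ‖z‖ := not_lt.1 hc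
      have a0 : 0 ≤ l - 2 := by linarith [hl.1]
      have a1 : l - 2 ≤ 1 / 4 := by nlinarith [hl.1]
      have e : z ^ 2 = -(((l - 2 : ℝ) : ℂ) * z + ((l * (l - 2) : ℝ) : ℂ)) := by
        push_cast; linear_combination h2
      have := congrArg norm e
      rw [norm_pow, norm_neg] at this
      have h3 := norm_add_le (((l - 2 : ℝ) : ℂ) * z) ((l * (l - 2) : ℝ) : ℂ)
      rw [norm_mul, Complex.norm_real, Complex.norm_real, Real.norm_of_nonneg a0,
        Real.norm_of_nonneg (mul_nonneg (by linarith) a0)] at h3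
      nlinarith

theorem result : ¬ ∀ (k : ℕ) (σ : Fin k → List (Fin k)) (u v : ℕ → Fin k) (n : ℕ)
    (B : Finset (Pr k)) (S : Pr k → List (Pr k)),
    UIP σ → (inc σ).det = 1 → σ ≠ rev σ → Fixed σ u → Fixed (rev σ) v →
    1 ≤ n → Bal (pre u n) (pre v n) → (∀ m, 1 ≤ m → m < n → ¬ Bal (pre u m) (pre v m)) →
    (∀ P, P ∈ B ↔ Reach S (pre u n, pre v n) P) →
    (∀ P ∈ B, Split (S P) (app σ P.1) (app (rev σ) P.2)) →
    (inc σ).charpoly ≠ (inc σ).charpoly.reverse →
    (inc σ).charpoly ∣ chi B S ∧ (inc σ).charpoly.reverse ∣ chi B S := by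
  intro H
  obtain ⟨u, hu, hu'⟩ := exists_fixed σ0 1 [2] rfl (by decide) (by decide)
  obtain ⟨v, hv, hv'⟩ := exists_fixed (rev σ0) 2 [1, 0] rfl (by decide) (by decide)
  have u0 : u 0 = 1 := hu' 1 0
  have u1 : u 1 = 2 := hu' 1 1
  have v0 : v 0 = 2 := hv' 1 0
  have v1 : v 1 = 1 := hv' 1 1
  have pu : pre u 2 = [1, 2] := by rw [← u0, ← u1]; rfl
  have pv : pre v 2 = [2, 1] := by rw [← v0, ← v1]; rfl
  have h := (H 3 σ0 u v 2 B0 S0 uip (by decide) (by decide) hu hv (by norm_num)
    (by rw [pu, pv]; decide) ?_ ?_ (by unfold Split; decide) ?_).2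
  · rw [cq, cchi] at h
    have := eval_dvd (x := 2) h
    norm_num at this
  · intro m h1 h2
    obtain rfl : m = 1 := by omega
    have a : pre u 1 = [1] := by rw [← u0]; rfl
    have b : pre v 1 = [2] := by rw [← v0]; rfl
    rw [a, b]; decide
  · rw [pu, pv]
    intro P
    constructor
    · intro hP
      have r1 : Reach S0 ([1, 2], [2, 1]) ([0], [0]) := Reach.step Reach.base (by decide)
      have r2 : Reach S0 ([1, 2], [2, 1]) ([1], [1]) := Reach.step r1 (by decide)
      simp only [B0, Finset.mem_insert, Finset.mem_singleton] at hP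
      rcases hP with rfl | rfl | rfl
      exacts [Reach.base, r1, r2]
    · intro hP
      induction hP with
      | base => decide
      | step _ hq ih =>
        have : ∀ P ∈ B0, ∀ Q ∈ S0 P, Q ∈ B0 := by decide
        exact this _ ih _ hq
  · rw [cq, cp]
    intro h
    have := congrArg (eval 0) h
    norm_num at this

end Pool.Agent.Results.MP_7b40b5_an.NotDividing
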